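import Mathlib

set_option autoImplicit false

namespace Pool.Agent.Results.MP_cb28d9_gt.MaxChainCounterexample

open Set Filter Topology

/-- s-completeness of a partially ordered topological space: every nonempty set closed under binary
infima has an infimum, lying in the closure of its upper set, and every nonempty chain has a
supremum, lying in the closure of its lower set. -/
def SComplete (X : Type) [PartialOrder X] [TopologicalSpace X] : Prop :=
  (∀ S : Set X, S.Nonempty → (∀ x ∈ S, ∀ y ∈ S, ∃ z ∈ S, IsGLB {x, y} z) →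
    ∃ i : X, IsGLB S i ∧ i ∈ closure {x | ∃ s ∈ S, s ≤ x}) ∧
  (∀ C : Set X, C.Nonempty → IsChain (· ≤ ·) C →
    ∃ j : X, IsLUB C j ∧ j ∈ closure {x | ∃ c ∈ C, x ≤ c})

/-! ### The first uncountable well-order -/

/-- The first uncountable well-ordered type. -/
abbrev Om : Type := (Ordinal.omega 1).ToType

instance : Nonempty Om := Ordinal.nonempty_toType_iff.2 (Ordinal.omega_pos 1).ne'

noncomputable instance : OrderBot Om := WellFoundedLT.toOrderBot Om

lemma mk_om : Cardinal.mk Om = Cardinal.aleph 1 := by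
  rw [Cardinal.mk_toType, Ordinal.card_omega]

lemma countable_Iio (a : Om) : (Iio a).Countable := by
  rw [← Cardinal.le_aleph0_iff_set_countable, ← Cardinal.lt_aleph_one_iff, ← mk_om]
  apply Cardinal.mk_Iio_lt
  rw [mk_om, Cardinal.ord_aleph, Ordinal.type_toType]

lemma countable_Iic (a : Om) : (Iic a).Countable := by
  rw [← Iio_insert]
  exact (countable_Iio a).insert a

lemma not_countable_univ : ¬ (univ : Set Om).Countable := by
  rw [← Cardinal.le_aleph0_iff_set_countable, ← Cardinal.lt_aleph_one_iff, Cardinal.mk_univ, mk_om]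
  exact lt_irrefl _

lemma bdd_of_countable {A : Set Om} (hA : A.Countable) : ∃ b : Om, ∀ x ∈ A, x < b := by
  by_contra h
  push Not at h
  apply not_countable_univ
  refine (hA.biUnion (fun x _ => countable_Iic x)).mono ?_
  intro b _
  obtain ⟨x, hx, hb⟩ := h b
  exact mem_biUnion hx hb

lemma exists_gt_om (a : Om) : ∃ b, a < b := by
  obtain ⟨b, hb⟩ := bdd_of_countable (countable_singleton a)
  exact ⟨b, hb a rfl⟩

/-- The linearly ordered part. -/
abbrev TT : Type := WithTop (Om ×ₗ Bool)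

/-- lower twin -/
def lo (a : Om) : TT := ((toLex (a, false) : Om ×ₗ Bool) : TT)

/-- upper twin -/
def hi (a : Om) : TT := ((toLex (a, true) : Om ×ₗ Bool) : TT)

lemma lo_le_lo {a b : Om} : lo a ≤ lo b ↔ a ≤ b := by
  rw [lo, lo, WithTop.coe_le_coe, Prod.Lex.toLex_le_toLex]
  simpa using le_iff_lt_or_eq.symm

lemma lo_le_hi {a b : Om} : lo a ≤ hi b ↔ a ≤ b := by
  rw [lo, hi, WithTop.coe_le_coe, Prod.Lex.toLex_le_toLex]
  simpa using le_iff_lt_or_eq.symm

lemma hi_le_hi {a b : Om} : hi a ≤ hi b ↔ a ≤ b := by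
  rw [hi, hi, WithTop.coe_le_coe, Prod.Lex.toLex_le_toLex]
  simpa using le_iff_lt_or_eq.symm

lemma hi_le_lo {a b : Om} : hi a ≤ lo b ↔ a < b := by
  rw [lo, hi, WithTop.coe_le_coe, Prod.Lex.toLex_le_toLex]
  simp

lemma lo_ne_top (a : Om) : lo a ≠ ⊤ := WithTop.coe_ne_top

lemma hi_ne_top (a : Om) : hi a ≠ ⊤ := WithTop.coe_ne_top

lemma tt_cases (u : TT) : u = ⊤ ∨ ∃ a, u = lo a ∨ u = hi a := by
  induction u using WithTop.recTopCoe with
  | top => exact Or.inl rfl
  | coe u =>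
    right
    obtain ⟨a, b⟩ := u
    refine ⟨a, ?_⟩
    cases b
    · exact Or.inl rfl
    · exact Or.inr rfl

lemma hi_cases {a : Om} {u : TT} (h : u ≤ hi a) : u = hi a ∨ u ≤ lo a := by
  rcases tt_cases u with rfl | ⟨b, rfl | rfl⟩
  · exact absurd (top_le_iff.1 h) (hi_ne_top a)
  · exact Or.inr (lo_le_lo.2 (lo_le_hi.1 h))
  · rcases (hi_le_hi.1 h).lt_or_eq with h | rfl
    · exact Or.inr (hi_le_lo.2 h)
    · exact Or.inl rfl

/-! ### The space -/

/-- The points of the semilattice: finite sets of countable ordinals, and a well-ordered tail. -/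
inductive Sp : Type
  | s (F : Finset Om) : Sp
  | t (u : TT) : Sp

/-- The order. -/
def Sp.le' : Sp → Sp → Prop
  | .s F, .s G => G ⊆ F
  | .t u, .t v => v ≤ u
  | .t u, .s F => F.sup lo ≤ u
  | .s _, .t _ => False

/-- The operation. -/
noncomputable def Sp.inf' : Sp → Sp → Sp
  | .s F, .s G => .s (F ∪ G)
  | .t u, .t v => .t (u ⊔ v)
  | .t u, .s F => .t (u ⊔ F.sup lo)
  | .s F, .t u => .t (u ⊔ F.sup lo)

noncomputable instance : SemilatticeInf Sp where
  le := Sp.le'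
  le_refl a := by
    cases a with
    | s F => exact Finset.Subset.refl F
    | t u => exact le_refl u
  le_trans a b c hab hbc := by
    cases a <;> cases b <;> cases c <;> simp only [Sp.le'] at *
    · exact hbc.trans hab
    · rename_i u F G
      exact (Finset.sup_mono hbc).trans hab
    · exact hbc.trans hab
    · exact hbc.trans hab
  le_antisymm a b hab hba := by
    cases a <;> cases b <;> simp only [Sp.le'] at *
    · rw [hba.antisymm hab]
    · rw [hba.antisymm hab]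
  inf := Sp.inf'
  inf_le_left a b := by
    cases a <;> cases b <;> simp [Sp.le', Sp.inf']
  inf_le_right a b := by
    cases a <;> cases b <;> simp [Sp.le', Sp.inf']
  le_inf a b c hab hac := by
    cases a <;> cases b <;> cases c <;> simp only [Sp.le', Sp.inf'] at *
    · exact Finset.union_subset hab hac
    · rw [Finset.sup_union]
      exact sup_le hab hac
    · exact sup_le hac hab
    · exact sup_le hab hac
    · exact sup_le hab hac

/-- The least point. -/
def pt : Sp := .t ⊤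

lemma pt_le (z : Sp) : pt ≤ z := by
  cases z with
  | s F => exact le_top (a := F.sup lo)
  | t u => exact le_top (a := u)

lemma eq_pt_of_le {z : Sp} (h : z ≤ pt) : z = pt := le_antisymm h (pt_le z)

lemma t_le_t {u v : TT} : Sp.t u ≤ Sp.t v ↔ v ≤ u := Iff.rfl

lemma s_le_s {F G : Finset Om} : Sp.s F ≤ Sp.s G ↔ G ⊆ F := Iff.rfl

lemma t_le_s {u : TT} {F : Finset Om} : Sp.t u ≤ Sp.s F ↔ F.sup lo ≤ u := Iff.rfl

lemma not_s_le_t {u : TT} {F : Finset Om} : ¬ Sp.s F ≤ Sp.t u := fun h => h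

lemma s_ne_pt (F : Finset Om) : Sp.s F ≠ pt := by
  intro h
  cases h

lemma thi_ne_pt (a : Om) : Sp.t (hi a) ≠ pt := by
  intro h
  exact hi_ne_top a (Sp.t.inj h)

lemma tlo_ne_pt (a : Om) : Sp.t (lo a) ≠ pt := by
  intro h
  exact lo_ne_top a (Sp.t.inj h)

lemma sup_lo_ne_top (F : Finset Om) : F.sup lo ≠ ⊤ := by
  apply ne_of_lt
  rw [Finset.sup_lt_iff (bot_lt_top)]
  intro b _
  exact WithTop.coe_lt_top _

/-- Above an upper twin there are only points above the lower twin. -/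
lemma twin_above {a : Om} {z : Sp} (h : Sp.t (hi a) ≤ z) : z = Sp.t (hi a) ∨ Sp.t (lo a) ≤ z := by
  cases z with
  | s F =>
    right
    rw [t_le_s, Finset.sup_le_iff] at *
    intro b hb
    exact lo_le_lo.2 (lo_le_hi.1 (h b hb))
  | t u =>
    rcases hi_cases (t_le_t.1 h) with rfl | h
    · exact Or.inl rfl
    · exact Or.inr (t_le_t.2 h)

/-- Below a lower twin there are only points below the upper twin. -/
lemma twin_below {a : Om} {z : Sp} (h : z ≤ Sp.t (lo a)) : z = Sp.t (lo a) ∨ z ≤ Sp.t (hi a) := by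
  cases z with
  | s F => exact absurd h not_s_le_t
  | t u =>
    have h := t_le_t.1 h
    rcases tt_cases u with rfl | ⟨b, rfl | rfl⟩
    · exact Or.inr (pt_le _)
    · rcases (lo_le_lo.1 h).lt_or_eq with h | rfl
      · exact Or.inr (t_le_t.2 (hi_le_lo.2 h))
      · exact Or.inl rfl
    · exact Or.inr (t_le_t.2 (hi_le_hi.2 (lo_le_hi.1 h)))

lemma thi_le_tlo (a : Om) : Sp.t (hi a) ≤ Sp.t (lo a) := t_le_t.2 (lo_le_hi.2 le_rfl)

lemma not_tlo_le_thi (a : Om) : ¬ Sp.t (lo a) ≤ Sp.t (hi a) := by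
  intro h
  exact lt_irrefl a (hi_le_lo.1 (t_le_t.1 h))

lemma exists_hi_le {z : Sp} (h : z ≠ pt) : ∃ b, Sp.t (hi b) ≤ z := by
  have key : ∀ u : TT, u ≠ ⊤ → ∃ b, u ≤ hi b := by
    intro u hu
    rcases tt_cases u with rfl | ⟨b, rfl | rfl⟩
    · exact absurd rfl hu
    · exact ⟨b, lo_le_hi.2 le_rfl⟩
    · exact ⟨b, le_rfl⟩
  cases z with
  | s F => exact key _ (sup_lo_ne_top F)
  | t u => exact key u (fun e => h (by rw [e]; rfl))

lemma inf_ne_pt {x y : Sp} : x ⊓ y ≠ pt ↔ x ≠ pt ∧ y ≠ pt := by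
  constructor
  · intro h
    constructor
    · rintro rfl
      exact h (inf_eq_left.2 (pt_le _))
    · rintro rfl
      exact h (inf_eq_right.2 (pt_le _))
  · rintro ⟨hx, hy⟩ h
    obtain ⟨a, ha⟩ := exists_hi_le hx
    obtain ⟨b, hb⟩ := exists_hi_le hy
    have h1 : Sp.t (hi (max a b)) ≤ x ⊓ y :=
      le_inf ((t_le_t.2 (hi_le_hi.2 (le_max_left a b))).trans ha)
        ((t_le_t.2 (hi_le_hi.2 (le_max_right a b))).trans hb)
    rw [h] at h1
    exact thi_ne_pt _ (eq_pt_of_le h1)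

/-! ### The topology -/

/-- The tail neighbourhoods of the least point. -/
def V (a : Om) : Set Sp := {z | z = pt ∨ ∃ b, a < b ∧ z = Sp.t (hi b)}

/-- The subbasis. -/
def subb : Set (Set Sp) :=
  {U | (∃ x, x ≠ pt ∧ U = Ici x) ∨ (∃ x, x ≠ pt ∧ U = {z | z ≠ pt ∧ ¬ x ≤ z}) ∨ (∃ a, U = V a)}

instance : TopologicalSpace Sp := TopologicalSpace.generateFrom subb

lemma isOpen_Ici {x : Sp} (hx : x ≠ pt) : IsOpen (Ici x) :=
  TopologicalSpace.isOpen_generateFrom_of_mem (Or.inl ⟨x, hx, rfl⟩)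

lemma isOpen_nle {x : Sp} (hx : x ≠ pt) : IsOpen {z | z ≠ pt ∧ ¬ x ≤ z} :=
  TopologicalSpace.isOpen_generateFrom_of_mem (Or.inr (Or.inl ⟨x, hx, rfl⟩))

lemma isOpen_V (a : Om) : IsOpen (V a) :=
  TopologicalSpace.isOpen_generateFrom_of_mem (Or.inr (Or.inr ⟨a, rfl⟩))

lemma isOpen_ne : IsOpen {z : Sp | z ≠ pt} := by
  have : {z : Sp | z ≠ pt} = ⋃ (x : Sp) (_ : x ≠ pt), Ici x := by
    ext z
    simp only [mem_ofPred_eq, mem_iUnion, mem_Ici, exists_prop]
    constructor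
    · intro h
      exact ⟨z, h, le_rfl⟩
    · rintro ⟨x, hx, hxz⟩ rfl
      exact hx (eq_pt_of_le hxz)
  rw [this]
  exact isOpen_iUnion (fun x => isOpen_iUnion (fun hx => isOpen_Ici hx))

lemma hi_singleton (a : Om) :
    ({Sp.t (hi a)} : Set Sp) = Ici (Sp.t (hi a)) ∩ {z | z ≠ pt ∧ ¬ Sp.t (lo a) ≤ z} := by
  ext z
  simp only [mem_singleton_iff, mem_inter_iff, mem_Ici, mem_ofPred_eq]
  constructor
  · rintro rfl
    exact ⟨le_rfl, thi_ne_pt a, not_tlo_le_thi a⟩
  · rintro ⟨h1, _, h2⟩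
    exact (twin_above h1).resolve_right h2

lemma isOpen_inf_ge {x : Sp} (hx : x ≠ pt) : IsOpen ((fun p : Sp × Sp => p.1 ⊓ p.2) ⁻¹' Ici x) := by
  have : (fun p : Sp × Sp => p.1 ⊓ p.2) ⁻¹' Ici x = Ici x ×ˢ Ici x := by
    ext ⟨a, b⟩
    simp only [mem_preimage, mem_Ici, mem_prod, le_inf_iff]
  rw [this]
  exact (isOpen_Ici hx).prod (isOpen_Ici hx)

lemma isOpen_inf_nle {x : Sp} (hx : x ≠ pt) :
    IsOpen ((fun p : Sp × Sp => p.1 ⊓ p.2) ⁻¹' {z | z ≠ pt ∧ ¬ x ≤ z}) := by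
  have : (fun p : Sp × Sp => p.1 ⊓ p.2) ⁻¹' {z | z ≠ pt ∧ ¬ x ≤ z} =
      ({z | z ≠ pt ∧ ¬ x ≤ z} ×ˢ {z | z ≠ pt}) ∪ ({z | z ≠ pt} ×ˢ {z | z ≠ pt ∧ ¬ x ≤ z}) := by
    ext ⟨a, b⟩
    simp only [mem_preimage, mem_ofPred_eq, mem_union, mem_prod, inf_ne_pt, le_inf_iff]
    tauto
  rw [this]
  exact ((isOpen_nle hx).prod isOpen_ne).union (isOpen_ne.prod (isOpen_nle hx))

lemma isOpen_inf_V (a : Om) : IsOpen ((fun p : Sp × Sp => p.1 ⊓ p.2) ⁻¹' V a) := by
  rw [isOpen_iff_forall_mem_open]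
  rintro ⟨p, q⟩ h
  have h : p ⊓ q ∈ V a := h
  rcases h with h | ⟨b, hb, h⟩
  · have key : ∀ z : Sp, z ≠ pt → ∃ c, a ≤ c ∧ ∀ v ∈ V c, ∀ w ∈ Ici z, v ⊓ w ∈ V a := by
      intro z hz
      obtain ⟨b, hb⟩ := exists_hi_le hz
      refine ⟨max a b, le_max_left _ _, ?_⟩
      rintro v (rfl | ⟨d, hd, rfl⟩) w hw
      · exact Or.inl (inf_eq_left.2 (pt_le _))
      · have : Sp.t (hi d) ≤ w :=
          ((t_le_t.2 (hi_le_hi.2 ((le_max_right a b).trans hd.le))).trans hb).trans hw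
        rw [inf_eq_left.2 this]
        exact Or.inr ⟨d, (le_max_left a b).trans_lt hd, rfl⟩
    have hpq : p = pt ∨ q = pt := by
      by_contra hcon
      push Not at hcon
      exact inf_ne_pt.2 hcon h
    by_cases hp : p = pt
    · by_cases hq : q = pt
      · refine ⟨V a ×ˢ V a, ?_, (isOpen_V a).prod (isOpen_V a), ⟨Or.inl hp, Or.inl hq⟩⟩
        rintro ⟨v, w⟩ ⟨hv, hw⟩
        simp only [mem_preimage]
        rcases hv with rfl | ⟨c, hc, rfl⟩
        · exact Or.inl (inf_eq_left.2 (pt_le _))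
        · rcases hw with rfl | ⟨d, hd, rfl⟩
          · exact Or.inl (inf_eq_right.2 (pt_le _))
          · right
            rcases le_total c d with hcd | hcd
            · exact ⟨d, hd, inf_eq_right.2 (t_le_t.2 (hi_le_hi.2 hcd))⟩
            · exact ⟨c, hc, inf_eq_left.2 (t_le_t.2 (hi_le_hi.2 hcd))⟩
      · obtain ⟨c, _, hc'⟩ := key q hq
        refine ⟨V c ×ˢ Ici q, ?_, (isOpen_V c).prod (isOpen_Ici hq), ⟨Or.inl hp, mem_Ici.2 le_rfl⟩⟩
        rintro ⟨v, w⟩ ⟨hv, hw⟩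
        exact hc' v hv w hw
    · have hq : q = pt := hpq.resolve_left hp
      obtain ⟨c, _, hc'⟩ := key p hp
      refine ⟨Ici p ×ˢ V c, ?_, (isOpen_Ici hp).prod (isOpen_V c), ⟨mem_Ici.2 le_rfl, Or.inl hq⟩⟩
      rintro ⟨v, w⟩ ⟨hv, hw⟩
      simp only [mem_preimage]
      rw [inf_comm]
      exact hc' w hw v hv
  · refine ⟨(fun p : Sp × Sp => p.1 ⊓ p.2) ⁻¹' {Sp.t (hi b)}, ?_, ?_, h⟩
    · rintro x (hx : x.1 ⊓ x.2 = Sp.t (hi b))
      exact Or.inr ⟨b, hb, hx⟩
    · rw [hi_singleton, preimage_inter]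
      exact (isOpen_inf_ge (thi_ne_pt b)).inter (isOpen_inf_nle (tlo_ne_pt b))

instance : ContinuousInf Sp where
  continuous_inf := by
    apply continuous_generateFrom_iff.2
    rintro U (⟨x, hx, rfl⟩ | ⟨x, hx, rfl⟩ | ⟨a, rfl⟩)
    · exact isOpen_inf_ge hx
    · exact isOpen_inf_nle hx
    · exact isOpen_inf_V a

instance : T2Space Sp := by
  have key1 : ∀ z : Sp, z ≠ pt → ∃ U W : Set Sp, IsOpen U ∧ IsOpen W ∧ pt ∈ U ∧ z ∈ W ∧
      Disjoint U W := by
    intro z hz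
    obtain ⟨b, hb⟩ := exists_hi_le hz
    refine ⟨V b, Ici z, isOpen_V b, isOpen_Ici hz, Or.inl rfl, mem_Ici.2 le_rfl, ?_⟩
    rw [Set.disjoint_left]
    rintro w (rfl | ⟨c, hc, rfl⟩) hw
    · exact hz (eq_pt_of_le hw)
    · have := hi_le_hi.1 (t_le_t.1 (hb.trans hw))
      exact absurd hc this.not_gt
  have key2 : ∀ x y : Sp, x ≠ pt → y ≠ pt → ¬ x ≤ y → ∃ U W : Set Sp, IsOpen U ∧ IsOpen W ∧
      x ∈ U ∧ y ∈ W ∧ Disjoint U W := by
    intro x y hx hy h
    refine ⟨Ici x, {z | z ≠ pt ∧ ¬ x ≤ z}, isOpen_Ici hx, isOpen_nle hx, mem_Ici.2 le_rfl, ⟨hy, h⟩, ?_⟩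
    rw [Set.disjoint_left]
    intro w hw hw'
    exact hw'.2 hw
  refine ⟨fun x y hxy => ?_⟩
  by_cases hx : x = pt
  · subst hx
    exact key1 y (Ne.symm hxy)
  · by_cases hy : y = pt
    · subst hy
      obtain ⟨U, W, h1, h2, h3, h4, h5⟩ := key1 x hxy
      exact ⟨W, U, h2, h1, h4, h3, h5.symm⟩
    · by_cases h : x ≤ y
      · have h' : ¬ y ≤ x := fun h' => hxy (le_antisymm h h')
        obtain ⟨U, W, h1, h2, h3, h4, h5⟩ := key2 y x hy hx h'
        exact ⟨W, U, h2, h1, h4, h3, h5.symm⟩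
      · exact key2 x y hx hy h

/-! ### Chains -/

lemma wf : WellFounded ((· < ·) : TT → TT → Prop) := wellFounded_lt

lemma chain_glb {C : Set Sp} (hne : C.Nonempty) (hC : IsChain (· ≤ ·) C) : ∃ c, IsGLB C c := by
  by_cases h : ∃ G, Sp.s G ∈ lowerBounds C
  · obtain ⟨G, hG⟩ := h
    have hform : ∀ z ∈ C, ∃ F, z = Sp.s F ∧ F ⊆ G := by
      intro z hz
      have h1 := hG hz
      cases z with
      | s F => exact ⟨F, rfl, h1⟩
      | t u => exact absurd h1 not_s_le_t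
    let N : Set ℕ := {n | ∃ F : Finset Om, Sp.s F ∈ C ∧ n = G.card - F.card}
    have hN : N.Nonempty := by
      obtain ⟨z, hz⟩ := hne
      obtain ⟨F, rfl, _⟩ := hform z hz
      exact ⟨_, F, hz, rfl⟩
    obtain ⟨F, hF, hFN⟩ := Nat.sInf_mem hN
    refine ⟨Sp.s F, ?_, ?_⟩
    · intro z hz
      obtain ⟨F', rfl, hF'⟩ := hform z hz
      rcases hC.total hF hz with h1 | h1
      · exact h1
      · have h2 : F ⊆ F' := h1
        have h3 : G.card - F.card ≤ G.card - F'.card := by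
          rw [← hFN]
          exact Nat.sInf_le ⟨F', hz, rfl⟩
        have h4 := Finset.card_le_card hF'
        have h5 := Finset.card_le_card h2
        have h6 : F = F' := Finset.eq_of_subset_of_card_le h2 (by omega)
        rw [h6]
    · intro z hz
      exact hz hF
  · push Not at h
    let A : Set TT := {u | Sp.t u ∈ lowerBounds C}
    have hA : A.Nonempty := ⟨⊤, fun z _ => pt_le z⟩
    refine ⟨Sp.t (wf.min A hA), wf.min_mem A hA, ?_⟩
    intro z hz
    cases z with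
    | s G => exact absurd hz (h G)
    | t u => exact t_le_t.2 (wf.min_le hz)

lemma mem_of_comparable {L : Set Sp} (hL : IsMaxChain (· ≤ ·) L) {c : Sp}
    (h : ∀ l ∈ L, c ≤ l ∨ l ≤ c) : c ∈ L := by
  have h1 : IsChain (· ≤ ·) (insert c L) := hL.1.insert (fun b hb _ => h b hb)
  have h2 := hL.2 h1 (subset_insert c L)
  rw [h2]
  exact mem_insert c L

lemma glb_mem {L C : Set Sp} (hL : IsMaxChain (· ≤ ·) L) (hCL : C ⊆ L) {c : Sp}
    (hc : IsGLB C c) : c ∈ L := by
  apply mem_of_comparable hL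
  intro l hl
  by_cases h : l ∈ lowerBounds C
  · exact Or.inr (hc.2 h)
  · simp only [lowerBounds, mem_ofPred_eq, not_forall] at h
    obtain ⟨z, hz, hlz⟩ := h
    left
    exact (hc.1 hz).trans ((hL.1.total (hCL hz) hl).resolve_right hlz)

lemma glb_closure {C : Set Sp} (hne : C.Nonempty) (hC : IsChain (· ≤ ·) C) {c : Sp}
    (hc : IsGLB C c) (hpt : c ≠ pt) : c ∈ closure C := by
  have key : ∀ U : Set Sp, IsOpen U → c ∈ U → ∃ z ∈ C, ∀ w ∈ C, w ≤ z → w ∈ U := by
    intro U hU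
    induction hU with
    | basic U hU =>
      intro hcU
      rcases hU with ⟨x, hx, rfl⟩ | ⟨x, hx, rfl⟩ | ⟨a, rfl⟩
      · obtain ⟨z, hz⟩ := hne
        exact ⟨z, hz, fun w hw _ => le_trans hcU (hc.1 hw)⟩
      · have h1 : x ∉ lowerBounds C := fun h => hcU.2 (hc.2 h)
        simp only [lowerBounds, mem_ofPred_eq, not_forall] at h1
        obtain ⟨z, hz, hxz⟩ := h1
        refine ⟨z, hz, fun w hw hwz => ⟨?_, fun h => hxz (h.trans hwz)⟩⟩
        rintro rfl
        exact hpt (eq_pt_of_le (hc.1 hw))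
      · rcases hcU with h | ⟨b, hb, rfl⟩
        · exact absurd h hpt
        · have hmem : Sp.t (hi b) ∈ C := by
            by_contra hcon
            have h1 : Sp.t (lo b) ∈ lowerBounds C := by
              intro w hw
              rcases twin_above (hc.1 hw) with rfl | h
              · exact absurd hw hcon
              · exact h
            exact not_tlo_le_thi b (hc.2 h1)
          refine ⟨_, hmem, fun w hw hwz => ?_⟩
          have : w = Sp.t (hi b) := le_antisymm hwz (hc.1 hw)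
          rw [this]
          exact Or.inr ⟨b, hb, rfl⟩
    | univ =>
      intro _
      obtain ⟨z, hz⟩ := hne
      exact ⟨z, hz, fun _ _ _ => trivial⟩
    | inter U W _ _ ihU ihW =>
      intro hcU
      obtain ⟨z, hz, hz'⟩ := ihU hcU.1
      obtain ⟨w, hw, hw'⟩ := ihW hcU.2
      rcases hC.total hz hw with h | h
      · exact ⟨z, hz, fun v hv hvz => ⟨hz' v hv hvz, hw' v hv (hvz.trans h)⟩⟩
      · exact ⟨w, hw, fun v hv hvw => ⟨hz' v hv (hvw.trans h), hw' v hv hvw⟩⟩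
    | sUnion S _ ih =>
      rintro ⟨U, hUS, hcU⟩
      obtain ⟨z, hz, hz'⟩ := ih U hUS hcU
      exact ⟨z, hz, fun w hw hwz => ⟨U, hUS, hz' w hw hwz⟩⟩
  rw [mem_closure_iff]
  intro U hU hcU
  obtain ⟨z, hz, hz'⟩ := key U hU hcU
  exact ⟨z, hz' z hz le_rfl, hz⟩

lemma open_pt {U : Set Sp} (hU : IsOpen U) : pt ∈ U → ∃ a, ∀ b, a < b → Sp.t (hi b) ∈ U := by
  induction hU with
  | basic U hU =>
    intro hcU
    rcases hU with ⟨x, hx, rfl⟩ | ⟨x, hx, rfl⟩ | ⟨a, rfl⟩
    · exact absurd (eq_pt_of_le hcU) hx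
    · exact absurd rfl hcU.1
    · exact ⟨a, fun b hb => Or.inr ⟨b, hb, rfl⟩⟩
  | univ => exact fun _ => ⟨⊥, fun _ _ => trivial⟩
  | inter U W _ _ ihU ihW =>
    intro hcU
    obtain ⟨a, ha⟩ := ihU hcU.1
    obtain ⟨b, hb⟩ := ihW hcU.2
    exact ⟨max a b, fun c hc => ⟨ha c ((le_max_left a b).trans_lt hc),
      hb c ((le_max_right a b).trans_lt hc)⟩⟩
  | sUnion S _ ih =>
    rintro ⟨U, hUS, hcU⟩
    obtain ⟨a, ha⟩ := ih U hUS hcU
    exact ⟨a, fun b hb => ⟨U, hUS, ha b hb⟩⟩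

lemma chain_max {C : Set Sp} (hne : C.Nonempty) (hC : IsChain (· ≤ ·) C) :
    ∃ m ∈ C, ∀ z ∈ C, z ≤ m := by
  by_cases h : ∃ F, Sp.s F ∈ C
  · let N : Set ℕ := {n | ∃ F : Finset Om, Sp.s F ∈ C ∧ n = F.card}
    have hN : N.Nonempty := by
      obtain ⟨F, hF⟩ := h
      exact ⟨_, F, hF, rfl⟩
    obtain ⟨F, hF, hFN⟩ := Nat.sInf_mem hN
    refine ⟨Sp.s F, hF, ?_⟩
    intro z hz
    cases z with
    | s G =>
      rcases hC.total hz hF with h1 | h1
      · exact h1
      · have h2 : G ⊆ F := h1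
        have h3 : F.card ≤ G.card := by
          rw [← hFN]
          exact Nat.sInf_le ⟨G, hz, rfl⟩
        rw [Finset.eq_of_subset_of_card_le h2 h3]
    | t u => exact (hC.total hz hF).resolve_right not_s_le_t
  · push Not at h
    let A : Set TT := {u | Sp.t u ∈ C}
    have hA : A.Nonempty := by
      obtain ⟨z, hz⟩ := hne
      cases z with
      | s F => exact absurd hz (h F)
      | t u => exact ⟨u, hz⟩
    refine ⟨Sp.t (wf.min A hA), wf.min_mem A hA, ?_⟩
    intro z hz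
    cases z with
    | s G => exact absurd hz (h G)
    | t u => exact t_le_t.2 (wf.min_le hz)

/-- A chain with infimum the least point, not attained, meets every tail of upper twins. -/
lemma tail {L C : Set Sp} (hL : IsMaxChain (· ≤ ·) L) (hCL : C ⊆ L)
    (hc : IsGLB C pt) (hpt : pt ∉ C) (a : Om) :
    ∃ b, a < b ∧ Sp.t (hi b) ∈ L ∧ ∃ c ∈ C, c ≤ Sp.t (hi b) := by
  have hC : IsChain (· ≤ ·) C := hL.1.mono hCL
  have nolb : ∀ x : Sp, x ≠ pt → ∃ c ∈ C, ¬ x ≤ c := by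
    intro x hx
    by_contra hcon
    push Not at hcon
    exact hx (eq_pt_of_le (hc.2 (fun c hc => hcon c hc)))
  obtain ⟨u0, hu0⟩ : ∃ u, Sp.t u ∈ C := by
    by_contra hcon
    push Not at hcon
    let 𝓕 : Set (Finset Om) := {F | Sp.s F ∈ C}
    have hF : 𝓕.Countable := by
      refine countable_of_injective_of_countable_image (f := Finset.card) ?_ (to_countable _)
      intro F hF G hG hFG
      rcases hC.total (show Sp.s F ∈ C from hF) (show Sp.s G ∈ C from hG) with h | h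
      · exact (Finset.eq_of_subset_of_card_le (s_le_s.1 h) hFG.le).symm
      · exact Finset.eq_of_subset_of_card_le (s_le_s.1 h) hFG.ge
    obtain ⟨b, hb⟩ := bdd_of_countable
      (hF.biUnion (fun F _ => (Finset.countable_toSet F)))
    obtain ⟨c, hcC, hc'⟩ := nolb _ (tlo_ne_pt b)
    cases c with
    | t u => exact hcon u hcC
    | s F =>
      apply hc'
      rw [t_le_s, Finset.sup_le_iff]
      intro x hx
      exact lo_le_lo.2 (hb x (mem_biUnion (show F ∈ 𝓕 from hcC) hx)).le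
  have hu0' : Sp.t u0 ≠ pt := fun h => hpt (h ▸ hu0)
  obtain ⟨a0, ha0⟩ := exists_hi_le hu0'
  obtain ⟨c1, hc1, hc1'⟩ := nolb _ (thi_ne_pt (max a a0))
  have h1 : c1 ≤ Sp.t u0 := by
    refine (hC.total hc1 hu0).resolve_right (fun h => hc1' ?_)
    exact ((t_le_t.2 (hi_le_hi.2 (le_max_right a a0))).trans ha0).trans h
  cases c1 with
  | s F => exact absurd h1 not_s_le_t
  | t u1 =>
    have hex : ∃ b1, max a a0 < b1 ∧ (u1 = lo b1 ∨ u1 = hi b1) := by
      rcases tt_cases u1 with rfl | ⟨b1, rfl | rfl⟩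
      · exact absurd hc1 hpt
      · refine ⟨b1, ?_, Or.inl rfl⟩
        by_contra hcon
        exact hc1' (t_le_t.2 (lo_le_hi.2 (not_lt.1 hcon)))
      · refine ⟨b1, ?_, Or.inr rfl⟩
        by_contra hcon
        exact hc1' (t_le_t.2 (hi_le_hi.2 (not_lt.1 hcon)))
    obtain ⟨b1, hb1, hu1⟩ := hex
    have hmem : Sp.t (hi b1) ∈ L := by
      rcases hu1 with rfl | rfl
      · apply mem_of_comparable hL
        intro l hl
        rcases hL.1.total (hCL hc1) hl with h | h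
        · exact Or.inl ((thi_le_tlo b1).trans h)
        · rcases twin_below h with rfl | h
          · exact Or.inl (thi_le_tlo b1)
          · exact Or.inr h
      · exact hCL hc1
    refine ⟨b1, (le_max_left a a0).trans_lt hb1, hmem, ?_⟩
    obtain ⟨c2, hc2, hc2'⟩ := nolb _ (thi_ne_pt b1)
    exact ⟨c2, hc2, (hL.1.total hmem (hCL hc2)).resolve_left hc2'⟩

lemma maxChain_complete {L : Set Sp} (hL : IsMaxChain (· ≤ ·) L) : SComplete L := by
  constructor
  · intro S hne _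
    let C : Set Sp := Subtype.val '' S
    have hCL : C ⊆ L := by
      rintro _ ⟨x, _, rfl⟩
      exact x.2
    have hC : IsChain (· ≤ ·) C := hL.1.mono hCL
    have hCne : C.Nonempty := hne.image _
    obtain ⟨c, hc⟩ := chain_glb hCne hC
    have hcL : c ∈ L := glb_mem hL hCL hc
    refine ⟨⟨c, hcL⟩, ⟨?_, ?_⟩, ?_⟩
    · intro x hx
      exact hc.1 ⟨x, hx, rfl⟩
    · intro y hy
      refine hc.2 ?_
      rintro _ ⟨x, hx, rfl⟩
      exact hy hx
    · rw [closure_subtype]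
      by_cases hcC : c ∈ C
      · obtain ⟨x, hx, hxc⟩ := hcC
        apply subset_closure
        exact ⟨⟨c, hcL⟩, ⟨x, hx, hxc.le⟩, rfl⟩
      · by_cases hpt : c = pt
        · subst hpt
          rw [mem_closure_iff]
          intro U hU hptU
          obtain ⟨a, ha⟩ := open_pt hU hptU
          obtain ⟨b, hab, hbL, c', ⟨x, hx, rfl⟩, hc'⟩ := tail hL hCL hc hcC a
          exact ⟨_, ha b hab, ⟨⟨_, hbL⟩, ⟨x, hx, hc'⟩, rfl⟩⟩
        · refine closure_mono ?_ (glb_closure hCne hC hc hpt)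
          rintro _ ⟨x, hx, rfl⟩
          exact ⟨x, ⟨x, hx, le_rfl⟩, rfl⟩
  · intro C hne hC
    have hCL : (Subtype.val '' C : Set Sp) ⊆ L := by
      rintro _ ⟨x, _, rfl⟩
      exact x.2
    have hC' : IsChain (· ≤ ·) (Subtype.val '' C : Set Sp) := hL.1.mono hCL
    obtain ⟨_, ⟨m, hm, rfl⟩, hm'⟩ := chain_max (hne.image _) hC'
    refine ⟨m, ⟨fun x hx => hm' _ ⟨x, hx, rfl⟩, fun y hy => hy hm⟩, ?_⟩
    exact subset_closure ⟨m, hm, le_rfl⟩

lemma not_complete : ¬ SComplete Sp := by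
  rintro ⟨h, -⟩
  obtain ⟨i, hi1, hi2⟩ := h (range Sp.s) (range_nonempty _) (by
    rintro _ ⟨F, rfl⟩ _ ⟨G, rfl⟩
    exact ⟨Sp.s (F ∪ G), ⟨_, rfl⟩, isGLB_pair⟩)
  have hpt : i = pt := by
    cases i with
    | s G =>
      exfalso
      obtain ⟨b, hb⟩ := bdd_of_countable (Finset.countable_toSet G)
      have h1 : Sp.s G ≤ Sp.s {b} := hi1.1 ⟨_, rfl⟩
      have h2 : b ∈ G := s_le_s.1 h1 (Finset.mem_singleton_self b)
      exact lt_irrefl b (hb b h2)
    | t u =>
      rcases tt_cases u with rfl | ⟨b, hu⟩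
      · rfl
      · exfalso
        obtain ⟨c, hbc⟩ := exists_gt_om b
        have h1 : Sp.t u ≤ Sp.s {c} := hi1.1 ⟨_, rfl⟩
        rw [t_le_s, Finset.sup_singleton] at h1
        rcases hu with rfl | rfl
        · exact absurd hbc (lo_le_lo.1 h1).not_gt
        · exact absurd hbc (lo_le_hi.1 h1).not_gt
  subst hpt
  rw [mem_closure_iff] at hi2
  obtain ⟨z, hz, _, ⟨F, rfl⟩, hFz⟩ := hi2 (V ⊥) (isOpen_V _) (Or.inl rfl)
  rcases hz with rfl | ⟨b, _, rfl⟩
  · exact not_s_le_t hFz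
  · exact not_s_le_t hFz

/-- There is a Hausdorff topological semilattice all of whose maximal chains are s-complete but
which is not s-complete itself. -/
theorem result : ∃ (X : Type) (_ : SemilatticeInf X) (_ : TopologicalSpace X),
    ContinuousInf X ∧ T2Space X ∧
    (∀ L : Set X, IsMaxChain (· ≤ ·) L → SComplete L) ∧ ¬ SComplete X :=
  ⟨Sp, inferInstance, inferInstance, inferInstance, inferInstance,
    fun _ hL => maxChain_complete hL, not_complete⟩

end Pool.Agent.Results.MP_cb28d9_gt.MaxChainCounterexample
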